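import Mathlib

namespace Pool.Agent.Results.MP_03f9bf_an.Fails

open Matrix Finset Module
open scoped InnerProductSpace Kronecker

/-- the singular values in non-increasing order, indexed from `0` -/
noncomputable def sv {n : ℕ} (X : Matrix (Fin n) (Fin n) ℂ) (i : ℕ) : ℝ :=
  (toEuclideanLin X).singularValues i

/-- trace over the first tensor factor -/
noncomputable def tr₁ {n : ℕ} (M : Matrix (Fin n × Fin n) (Fin n × Fin n) ℂ) :
    Matrix (Fin n) (Fin n) ℂ :=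
  of fun i j => ∑ a, M (a, i) (a, j)

/-- `S_A` -/
noncomputable def S {n : ℕ} (A : Matrix (Fin n) (Fin n) ℂ) :
    Matrix (Fin n × Fin n) (Fin n × Fin n) ℂ :=
  A ⊗ₖ (1 : Matrix (Fin n) (Fin n) ℂ) + (1 : Matrix (Fin n) (Fin n) ℂ) ⊗ₖ A

/-- `D_B` -/
noncomputable def D {n : ℕ} (B : Matrix (Fin n) (Fin n) ℂ) :
    Matrix (Fin n × Fin n) (Fin n × Fin n) ℂ :=
  B ⊗ₖ (1 : Matrix (Fin n) (Fin n) ℂ) - (1 : Matrix (Fin n) (Fin n) ℂ) ⊗ₖ B

variable {n : ℕ}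

lemma tr₁_kron (X Y : Matrix (Fin n) (Fin n) ℂ) : tr₁ (X ⊗ₖ Y) = X.trace • Y := by
  ext i j
  simp [tr₁, trace, sum_mul]

lemma tr₁_sub (X Y : Matrix (Fin n × Fin n) (Fin n × Fin n) ℂ) : tr₁ (X - Y) = tr₁ X - tr₁ Y := by
  ext i j
  simp [tr₁]

lemma tr₁_add (X Y : Matrix (Fin n × Fin n) (Fin n × Fin n) ℂ) : tr₁ (X + Y) = tr₁ X + tr₁ Y := by
  ext i j
  simp [tr₁, sum_add_distrib]

noncomputable def L (A B : Matrix (Fin n) (Fin n) ℂ) : Matrix (Fin n) (Fin n) ℂ :=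
  (A * B).trace • 1 - A.trace • B + B.trace • A - (n : ℂ) • (A * B)

noncomputable def R (B : Matrix (Fin n) (Fin n) ℂ) : Matrix (Fin n) (Fin n) ℂ :=
  B.trace • 1 - (n : ℂ) • B

lemma eqR (B : Matrix (Fin n) (Fin n) ℂ) : tr₁ (D B) = R B := by
  simp [D, R, tr₁_sub, tr₁_kron]

lemma eqL (A B : Matrix (Fin n) (Fin n) ℂ) : tr₁ (S A * D B) = L A B := by
  simp only [S, D, L, add_mul, mul_sub, ← mul_kronecker_mul, tr₁_sub, tr₁_add, tr₁_kron, mul_one,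
    one_mul, trace_one, Fintype.card_fin]
  abel

lemma basis (X : Matrix (Fin n) (Fin n) ℂ) : ∃ v : OrthonormalBasis (Fin n) ℂ (EuclideanSpace ℂ (Fin n)),
    ∀ i, toEuclideanLin (Xᴴ * X) (v i) = ((sv X i ^ 2 : ℝ) : ℂ) • v i := by
  refine ⟨(toEuclideanLin X).isSymmetric_adjoint_comp_self.eigenvectorBasis (by simp), fun i => ?_⟩
  rw [sv, LinearMap.sq_singularValues_fin _ (by simp), toLpLin_mul_same,
    toEuclideanLin_conjTranspose_eq_adjoint]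
  exact LinearMap.IsSymmetric.apply_eigenvectorBasis _ _ i

lemma tr (X : Matrix (Fin n) (Fin n) ℂ) (v : OrthonormalBasis (Fin n) ℂ (EuclideanSpace ℂ (Fin n))) :
    X.trace = ∑ i, ⟪v i, toEuclideanLin X (v i)⟫_ℂ := by
  rw [← LinearMap.trace_eq_sum_inner, toEuclideanLin_eq_toLin, trace_toLin_eq]

lemma nrm {X : Matrix (Fin n) (Fin n) ℂ} {y : EuclideanSpace ℂ (Fin n)} {c : ℝ} (hc : 0 ≤ c)
    (h : toEuclideanLin (Xᴴ * X) y = ((c ^ 2 : ℝ) : ℂ) • y) : ‖toEuclideanLin X y‖ = c * ‖y‖ := by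
  have h1 := congrArg (fun z => ⟪y, z⟫_ℂ) h
  simp only [toLpLin_mul_same, toEuclideanLin_conjTranspose_eq_adjoint, LinearMap.comp_apply,
    LinearMap.adjoint_inner_right, inner_smul_right, inner_self_eq_norm_sq_to_K] at h1
  refine (pow_left_inj₀ (norm_nonneg _) (by positivity) two_ne_zero).1 ?_
  rw [mul_pow]
  exact Complex.ofReal_injective (by simpa using h1)

lemma low (X U : Matrix (Fin n) (Fin n) ℂ) {c : ℝ} (hc : 0 ≤ c) (h : Uᴴ * U = ((c ^ 2 : ℝ) : ℂ) • 1) :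
    ‖(U * X).trace‖ ≤ c * ∑ i ∈ range n, sv X i := by
  obtain ⟨v, hv⟩ := basis X
  rw [tr _ v, sum_range, mul_sum]
  refine (norm_sum_le _ _).trans (sum_le_sum fun i _ => (norm_inner_le_norm _ _).trans_eq ?_)
  rw [toLpLin_mul_same, LinearMap.comp_apply, nrm hc (by simp [h]),
    nrm (LinearMap.singularValues_nonneg _ _) (hv i)]
  simp [sv]

lemma two {X : Matrix (Fin n) (Fin n) ℂ} {c : ℝ} (hc : 0 < c)
    (h : Xᴴ * X * (Xᴴ * X) = ((c ^ 2 : ℝ) : ℂ) • (Xᴴ * X)) :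
    (∀ i ∈ range n, sv X i ≤ c) ∧ ((c * ∑ i ∈ range n, sv X i : ℝ) : ℂ) = (Xᴴ * X).trace := by
  obtain ⟨v, hv⟩ := basis X
  have key (i : Fin n) : sv X i = 0 ∨ sv X i = c := by
    have h1 := congrArg (fun Y => toEuclideanLin Y (v i)) h
    simp only [toLpLin_mul_same (A := Xᴴ * X), LinearMap.comp_apply, map_smul, hv, smul_smul,
      LinearMap.smul_apply] at h1
    have h2 := smul_left_injective ℂ (v.orthonormal.ne_zero i) h1
    have h3 : sv X i ^ 2 * sv X i ^ 2 = c ^ 2 * sv X i ^ 2 := by exact_mod_cast h2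
    rcases mul_eq_mul_right_iff.1 h3 with e | e
    · exact .inr ((pow_left_inj₀ (LinearMap.singularValues_nonneg _ _) hc.le two_ne_zero).1 e)
    · exact .inl (pow_eq_zero_iff two_ne_zero |>.1 e)
  refine ⟨fun i hi => ?_, ?_⟩
  · rcases key ⟨i, mem_range.1 hi⟩ with e | e
    · exact e.le.trans hc.le
    · exact e.le
  · rw [tr _ v, sum_range, mul_sum, Complex.ofReal_sum]
    refine sum_congr rfl fun i _ => ?_
    rw [hv, inner_smul_right, inner_self_eq_norm_sq_to_K, v.orthonormal.1 i]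
    rcases key i with e | e <;> simp [e, sq]

def A₀ : Matrix (Fin 15) (Fin 15) ℤ := of fun i j => if Equiv.swap 1 2 i = j then 1 else 0
def B₀ : Matrix (Fin 15) (Fin 15) ℤ := diagonal fun i => if i = 0 then 1 else if i = 1 then -1 else 0
def U₀ : Matrix (Fin 15) (Fin 15) ℤ := of fun i j =>
  if i = j then (if i = 0 then -29 else if i = 1 ∨ i = 2 then 20 else 29)
  else if i = 1 ∧ j = 2 then 21 else if i = 2 ∧ j = 1 then -21 else 0

noncomputable def f : Matrix (Fin 15) (Fin 15) ℤ →+* Matrix (Fin 15) (Fin 15) ℂ :=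
  (Int.castRingHom ℂ).mapMatrix

lemma fH (X : Matrix (Fin 15) (Fin 15) ℤ) : (f X)ᴴ = f Xᵀ := by
  ext i j
  simp [f]

lemma ftr (X : Matrix (Fin 15) (Fin 15) ℤ) : (f X).trace = (X.trace : ℤ) := by
  simp [f, trace]

lemma fs (z : ℤ) (X : Matrix (Fin 15) (Fin 15) ℤ) : f (z • X) = (z : ℂ) • f X := by
  rw [map_zsmul, Int.cast_smul_eq_zsmul]

theorem result : ∃ (n : ℕ) (A B : Matrix (Fin n) (Fin n) ℂ) (k : ℕ), A.IsHermitian ∧ B.IsHermitian ∧
    1 ≤ k ∧ k ≤ n ∧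
    2 * sv A 0 * ∑ i ∈ range k, sv (tr₁ (D B)) i < ∑ i ∈ range k, sv (tr₁ (S A * D B)) i := by
  simp only [eqL, eqR]
  have a1 : A₀ᵀ = A₀ := by decide +kernel
  have a2 : B₀ᵀ = B₀ := by decide +kernel
  have a3 : A₀.trace = 13 := by decide +kernel
  have a4 : B₀.trace = 0 := by decide +kernel
  have a5 : (A₀ * B₀).trace = 1 := by decide +kernel
  have a6 : A₀ * A₀ = 1 := by decide +kernel
  have a7 : U₀ᵀ * U₀ = (841 : ℤ) • 1 := by decide +kernel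
  have a8 : (U₀ * (1 - (13 : ℤ) • B₀ - (15 : ℤ) • (A₀ * B₀))).trace = 1746 := by decide +kernel
  have a9 : ((-15 : ℤ) • B₀)ᵀ * ((-15 : ℤ) • B₀) * (((-15 : ℤ) • B₀)ᵀ * ((-15 : ℤ) • B₀)) =
      (225 : ℤ) • (((-15 : ℤ) • B₀)ᵀ * ((-15 : ℤ) • B₀)) := by decide +kernel
  have a10 : (((-15 : ℤ) • B₀)ᵀ * ((-15 : ℤ) • B₀)).trace = 450 := by decide +kernel
  have hR : R (f B₀) = f ((-15 : ℤ) • B₀) := by simp [R, ftr, a4, -zsmul_eq_mul, fs]
  have hL : L (f A₀) (f B₀) = f (1 - (13 : ℤ) • B₀ - (15 : ℤ) • (A₀ * B₀)) := by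
    rw [L, ← map_mul, ftr, ftr, ftr, a3, a4, a5, map_sub, map_sub, fs, fs, map_one]
    simp
  refine ⟨15, f A₀, f B₀, 15, by rw [IsHermitian, fH, a1], by rw [IsHermitian, fH, a2],
    by norm_num, le_rfl, ?_⟩
  have h1 := low (L (f A₀) (f B₀)) (f U₀) (c := 29) (by norm_num) (by
    rw [fH, ← map_mul, a7, fs, map_one]; norm_num)
  nth_rewrite 1 [hL] at h1
  rw [← map_mul, ftr, a8] at h1
  have h2 := (two (X := f A₀) one_pos (by rw [fH, a1, ← map_mul, a6]; simp)).1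
  have h3 := (two (X := R (f B₀)) (c := 15) (by norm_num) (by
    rw [hR, fH, ← map_mul, ← map_mul, a9, fs]; norm_num)).2
  nth_rewrite 2 [hR] at h3
  nth_rewrite 2 [hR] at h3
  rw [fH, ← map_mul, ftr, a10] at h3
  have h4 : 15 * ∑ i ∈ range 15, sv (R (f B₀)) i = 450 := by exact_mod_cast h3
  have h5 := h2 0 (by simp)
  have h6 : ‖((1746 : ℤ) : ℂ)‖ = 1746 := by simp
  have h7 : ∑ i ∈ range 15, sv (R (f B₀)) i = 30 := by linarith
  rw [h7]
  linarith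

end Pool.Agent.Results.MP_03f9bf_an.Fails
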